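import Pool.Agent.Q205.NH.All
import Pool.Agent.Q205.NH.FinB
import Pool.Agent.Q223.NH.DN

set_option autoImplicit false

/-!
# Degrees DNC relative to the halting problem need not solve Hindman's theorem for pairs

There is a computable two-colouring `c` of the natural numbers such that almost no oracle computes
an infinite set all of whose sums of exactly two distinct elements have the same colour.  The
colouring is a sum modulo two of rotation colourings, one for each Turing functional `Φ`: if `Φ`
computes an infinite set from more than three quarters of all oracles, then for half of the oracles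
the first elements of the set are long finite sets `D` in one residue class modulo the period of the
rotations chosen before; a multiplier modulo a large power of two chosen by averaging over these `D`
makes the rotation not constant on every translate of most of them, even if the translate is cut
into two pieces.  A function which is DNC relative to any given sequence of partial functions is
computed by oracles of positive measure (choose its `e`-th value at random among `2 ^ (e + 2)` ones).
-/

namespace Pool.Agent.Results.MP_bdf372_lc.Disproof

open Pool.Agent.Q205.NH MeasureTheory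

/-- `H` is a solution of the colouring `c` for sums of exactly `n` distinct elements: `H` is infinite
and all sums of exactly `n` distinct elements of `H` have the same colour. -/
def Solution (n : ℕ) (c : ℕ → Bool) (H : Set ℕ) : Prop :=
  H.Infinite ∧ ∃ i, ∀ F : Finset ℕ, (∀ x ∈ F, x ∈ H) → F.card = n → c (∑ x ∈ F, x) = i

/-- The oracle `A` computes no infinite set all whose sums of exactly `n` distinct elements have the
same colour, for no `n ≥ 2`; moreover each infinite set `H` computable from `A` has a finite subset
`D` only finitely many translates `D + y` of which are monochromatic. -/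
def ComputesNoSolution (c : ℕ → Bool) (A : Set ℕ) : Prop :=
  (∀ n, 2 ≤ n → ∀ H : Set ℕ, TuringReducible (chi H) (chi A) → ¬ Solution n c H) ∧
  ∀ H : Set ℕ, TuringReducible (chi H) (chi A) → H.Infinite →
    ∃ D : Finset ℕ, (∀ d ∈ D, d ∈ H) ∧ ∃ y₀, ∀ y, y₀ ≤ y → ∃ d ∈ D, ∃ d' ∈ D, c (d + y) ≠ c (d' + y)

theorem result : ∃ c : ℕ → Bool, Computable c ∧
    (∀ φ : ℕ → (ℕ →. ℕ), ∃ A : Set ℕ,
      (∃ f : ℕ → ℕ, TuringReducible (fun n => Part.some (f n)) (chi A) ∧ ∀ e, f e ∉ φ e e) ∧
      ComputesNoSolution c A) ∧
    ∀ᵐ X ∂(Measure.infinitePi fun _ : ℕ => (PMF.uniformOfFintype Bool).toMeasure),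
      ComputesNoSolution c {n | X n = true} := by
  obtain ⟨c, hc, h1, h2⟩ := fin_deg main_ae Pool.Agent.Q223.NH.s_dn
  have key : ∀ A : Set ℕ, (∀ H : Set ℕ, H.Infinite → TuringReducible (chi H) (chi A) →
      Killed c H) → ComputesNoSolution c A := fun A hA =>
    ⟨fun n hn H hH hs => not_mono_of_killed hs.1 (hA H hs.1 hH) hn hs.2,
      fun H hH hinf => hA H hinf hH⟩
  refine ⟨c, hc, ?_, ?_⟩
  · intro φ
    obtain ⟨A, hf, hA⟩ := h2 φ
    exact ⟨A, hf, key A hA⟩
  · filter_upwards [h1] with X hX
    exact key _ hX

end Pool.Agent.Results.MP_bdf372_lc.Disproof
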